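import Pool.Agent.T9h76.EW.Count

/-!
# MP_b0fbe2_co, Q1: the fourth even-Wilf-equivalence fails, at length 14

The number of permutations of length 14 that avoid `13524` is odd (it is 15739870457), and reversal
changes the sign of a permutation of length 14. Hence the number of even permutations of length 14
avoiding `13524` is not equal to the number of odd ones, which is the number of even permutations of
length 14 avoiding `42531`.

The parity is obtained from the generating tree of the permutations avoiding `24135` (the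
reverse-complement of `13524`) by inserting maxima: two words with the same state have the same number
of descendants, and pairs of equal states cancel modulo 2.
-/

namespace Pool.Agent.Results.MP_b0fbe2_co.NotEvenWilf

open Pool.Agent.T9h76.EW

/-- the permutation `π` contains the pattern with one-line word `σ` -/
def Contains {n k : ℕ} (π : Equiv.Perm (Fin n)) (σ : Fin k → ℕ) : Prop :=
  ∃ f : Fin k → Fin n, StrictMono f ∧ ∀ i j, σ i < σ j ↔ π (f i) < π (f j)

open Classical in
/-- the even permutations of length `n` that avoid `σ` -/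
noncomputable def E (n : ℕ) {k : ℕ} (σ : Fin k → ℕ) : Finset (Equiv.Perm (Fin n)) :=
  Finset.univ.filter (fun π => Equiv.Perm.sign π = 1 ∧ ¬ Contains π σ)

/-- even-Wilf-equivalence -/
def EvenWilf {k l : ℕ} (σ : Fin k → ℕ) (τ : Fin l → ℕ) : Prop :=
  ∀ n : ℕ, 1 ≤ n → (E n σ).card = (E n τ).card

lemma length_wd {n : ℕ} (π : Equiv.Perm (Fin n)) : (wd π).length = n := by
  unfold wd
  rw [List.length_ofFn]

lemma get_wd {n : ℕ} (π : Equiv.Perm (Fin n)) (i : Fin (wd π).length) :
    (wd π).get i = (π (Fin.cast (length_wd π) i) : ℕ) := by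
  unfold wd
  rw [List.get_ofFn]

lemma contains_iff {n : ℕ} (π : Equiv.Perm (Fin n)) : Contains π ![2, 4, 1, 3, 5] ↔ C5 (wd π) := by
  constructor
  · rintro ⟨f, hf, h⟩
    refine ⟨π (f 0), π (f 1), π (f 2), π (f 3), π (f 4), ?_, ?_, ?_, ?_, ?_⟩
    · rw [List.sublist_iff_exists_fin_orderEmbedding_get_eq]
      refine ⟨OrderEmbedding.ofStrictMono (fun i : Fin 5 => Fin.cast (length_wd π).symm (f i)) ?_, ?_⟩
      · intro i j hij
        exact hf hij
      · intro i
        rw [get_wd]
        match i with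
        | ⟨0, _⟩ => rfl
        | ⟨1, _⟩ => rfl
        | ⟨2, _⟩ => rfl
        | ⟨3, _⟩ => rfl
        | ⟨4, _⟩ => rfl
    · have := (h 2 0).1 (by decide)
      exact this
    · have := (h 0 3).1 (by decide)
      exact this
    · have := (h 3 1).1 (by decide)
      exact this
    · have := (h 1 4).1 (by decide)
      exact this
  · rintro ⟨a, b, c, d, e, hs, h1, h2, h3, h4⟩
    rw [List.sublist_iff_exists_fin_orderEmbedding_get_eq] at hs
    obtain ⟨g, hg⟩ := hs
    refine ⟨fun i : Fin 5 => Fin.cast (length_wd π) (g i), ?_, ?_⟩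
    · intro i j hij
      exact g.strictMono hij
    · have h0 : ∀ i : Fin 5, (π (Fin.cast (length_wd π) (g i)) : ℕ) = [a, b, c, d, e].get i := by
        intro i
        rw [hg i, get_wd]
      intro i j
      rw [Fin.lt_def, h0 i, h0 j]
      fin_cases i <;> fin_cases j <;> simp <;> omega

lemma contains_rev {n k : ℕ} (π : Equiv.Perm (Fin n)) (σ τ : Fin k → ℕ)
    (h : ∀ i, τ i = σ (Fin.rev i)) : Contains (π * Fin.revPerm) τ ↔ Contains π σ := by
  constructor
  · rintro ⟨f, hf, h1⟩
    refine ⟨fun i => Fin.rev (f (Fin.rev i)), ?_, ?_⟩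
    · intro i j hij
      rw [Fin.rev_lt_rev]
      exact hf (Fin.rev_lt_rev.2 hij)
    · intro i j
      have := h1 (Fin.rev i) (Fin.rev j)
      rw [h, h, Fin.rev_rev, Fin.rev_rev] at this
      exact this
  · rintro ⟨f, hf, h1⟩
    refine ⟨fun i => Fin.rev (f (Fin.rev i)), ?_, ?_⟩
    · intro i j hij
      rw [Fin.rev_lt_rev]
      exact hf (Fin.rev_lt_rev.2 hij)
    · intro i j
      rw [h, h, h1]
      show _ ↔ π (Fin.rev (Fin.rev (f (Fin.rev i)))) < π (Fin.rev (Fin.rev (f (Fin.rev j))))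
      rw [Fin.rev_rev, Fin.rev_rev]

lemma contains_compl {n k : ℕ} (π : Equiv.Perm (Fin n)) (σ τ : Fin k → ℕ)
    (h : ∀ i j, τ i < τ j ↔ σ j < σ i) : Contains (Fin.revPerm * π) τ ↔ Contains π σ := by
  constructor
  · rintro ⟨f, hf, h1⟩
    refine ⟨f, hf, fun i j => ?_⟩
    rw [← h, h1]
    show Fin.rev (π (f j)) < Fin.rev (π (f i)) ↔ _
    rw [Fin.rev_lt_rev]
  · rintro ⟨f, hf, h1⟩
    refine ⟨f, hf, fun i j => ?_⟩
    rw [h, h1]
    show _ ↔ Fin.rev (π (f i)) < Fin.rev (π (f j))
    rw [Fin.rev_lt_rev]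

lemma rev_mul_rev {n : ℕ} : (Fin.revPerm : Equiv.Perm (Fin n)) * Fin.revPerm = 1 := by
  ext i
  show (Fin.rev (Fin.rev i) : ℕ) = i
  rw [Fin.rev_rev]

lemma sign_rev : Equiv.Perm.sign (Fin.revPerm : Equiv.Perm (Fin 14)) = -1 := by
  have h : (Fin.revPerm : Equiv.Perm (Fin 14)) = Equiv.swap 0 13 * Equiv.swap 1 12 * Equiv.swap 2 11 *
      Equiv.swap 3 10 * Equiv.swap 4 9 * Equiv.swap 5 8 * Equiv.swap 6 7 := by
    decide +kernel
  rw [h]
  simp only [Equiv.Perm.sign_mul]
  rw [Equiv.Perm.sign_swap (by decide), Equiv.Perm.sign_swap (by decide), Equiv.Perm.sign_swap (by decide),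
    Equiv.Perm.sign_swap (by decide), Equiv.Perm.sign_swap (by decide), Equiv.Perm.sign_swap (by decide),
    Equiv.Perm.sign_swap (by decide)]
  decide

open Classical in
/-- the number of permutations of length 14 avoiding `13524` is odd -/
lemma odd_13524 : ((Finset.univ : Finset (Equiv.Perm (Fin 14))).filter
    (fun π => ¬ Contains π ![1, 3, 5, 2, 4])).card % 2 = 1 := by
  refine (congrArg (· % 2) ?_).trans odd_card
  refine Finset.card_nbij' (fun π => Fin.revPerm * (π * Fin.revPerm))
    (fun π => Fin.revPerm * (π * Fin.revPerm)) ?_ ?_ ?_ ?_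
  · intro π hπ
    simp only [Finset.coe_filter, Finset.mem_univ, true_and, Set.mem_ofPred_eq] at hπ ⊢
    rw [← contains_iff, contains_compl _ ![4, 2, 5, 3, 1] _ (by decide),
      contains_rev _ ![1, 3, 5, 2, 4] _ (by decide)]
    exact hπ
  · intro π hπ
    simp only [Finset.coe_filter, Finset.mem_univ, true_and, Set.mem_ofPred_eq] at hπ ⊢
    rw [contains_compl _ ![5, 3, 1, 4, 2] _ (by decide),
      contains_rev _ ![2, 4, 1, 3, 5] _ (by decide), contains_iff]
    exact hπ
  · intro π _
    show Fin.revPerm * ((Fin.revPerm * (π * Fin.revPerm)) * Fin.revPerm) = π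
    rw [mul_assoc, mul_assoc, rev_mul_rev, mul_one, ← mul_assoc, rev_mul_rev, one_mul]
  · intro π _
    show Fin.revPerm * ((Fin.revPerm * (π * Fin.revPerm)) * Fin.revPerm) = π
    rw [mul_assoc, mul_assoc, rev_mul_rev, mul_one, ← mul_assoc, rev_mul_rev, one_mul]

open Classical in
/-- the number of even permutations of length 14 avoiding `42531` is the number of odd ones avoiding
`13524` -/
lemma card_42531 : (E 14 ![4, 2, 5, 3, 1]).card = ((Finset.univ : Finset (Equiv.Perm (Fin 14))).filter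
    (fun π => Equiv.Perm.sign π ≠ 1 ∧ ¬ Contains π ![1, 3, 5, 2, 4])).card := by
  unfold E
  refine Finset.card_nbij' (fun π => π * Fin.revPerm) (fun π => π * Fin.revPerm) ?_ ?_ ?_ ?_
  · intro π hπ
    simp only [Finset.coe_filter, Finset.mem_univ, true_and, Set.mem_ofPred_eq] at hπ ⊢
    rw [contains_rev _ ![4, 2, 5, 3, 1] _ (by decide), Equiv.Perm.sign_mul, sign_rev, hπ.1]
    exact ⟨by decide, hπ.2⟩
  · intro π hπ
    simp only [Finset.coe_filter, Finset.mem_univ, true_and, Set.mem_ofPred_eq] at hπ ⊢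
    rw [contains_rev _ ![1, 3, 5, 2, 4] _ (by decide), Equiv.Perm.sign_mul, sign_rev]
    refine ⟨?_, hπ.2⟩
    rcases Int.units_eq_one_or (Equiv.Perm.sign π) with h | h
    · exact absurd h hπ.1
    · rw [h]; decide
  · intro π _
    show π * Fin.revPerm * Fin.revPerm = π
    rw [mul_assoc, rev_mul_rev, mul_one]
  · intro π _
    show π * Fin.revPerm * Fin.revPerm = π
    rw [mul_assoc, rev_mul_rev, mul_one]

lemma ne14 : (E 14 ![1, 3, 5, 2, 4]).card ≠ (E 14 ![4, 2, 5, 3, 1]).card := by
  classical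
  intro h
  rw [card_42531] at h
  have h1 := odd_13524
  rw [← Finset.card_filter_add_card_filter_not (s := (Finset.univ : Finset (Equiv.Perm (Fin 14))).filter
    (fun π => ¬ Contains π ![1, 3, 5, 2, 4])) (fun π => Equiv.Perm.sign π = 1), Finset.filter_filter,
    Finset.filter_filter] at h1
  have e1 : ((Finset.univ : Finset (Equiv.Perm (Fin 14))).filter
      (fun π => ¬ Contains π ![1, 3, 5, 2, 4] ∧ Equiv.Perm.sign π = 1)) = E 14 ![1, 3, 5, 2, 4] := by
    unfold E
    apply Finset.filter_congr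
    intro π _
    exact and_comm
  have e2 : ((Finset.univ : Finset (Equiv.Perm (Fin 14))).filter
      (fun π => ¬ Contains π ![1, 3, 5, 2, 4] ∧ ¬ Equiv.Perm.sign π = 1)) =
      (Finset.univ : Finset (Equiv.Perm (Fin 14))).filter
      (fun π => Equiv.Perm.sign π ≠ 1 ∧ ¬ Contains π ![1, 3, 5, 2, 4]) := by
    apply Finset.filter_congr
    intro π _
    exact and_comm
  rw [e1, e2] at h1
  omega

/-- the patterns `13524` and `42531` are not even-Wilf-equivalent: the numbers differ for `n = 14`; in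
particular the four equivalences do not all hold -/
theorem result :
    (E 14 ![1, 3, 5, 2, 4]).card ≠ (E 14 ![4, 2, 5, 3, 1]).card ∧
    ¬ (EvenWilf ![1, 2, 3, 4, 5] ![4, 5, 3, 1, 2] ∧ EvenWilf ![5, 4, 3, 2, 1] ![2, 1, 3, 5, 4] ∧
      EvenWilf ![1, 2, 3, 5, 4] ![4, 5, 3, 2, 1] ∧ EvenWilf ![1, 3, 5, 2, 4] ![4, 2, 5, 3, 1]) :=
  ⟨ne14, fun h => ne14 (h.2.2.2 14 (by norm_num))⟩

end Pool.Agent.Results.MP_b0fbe2_co.NotEvenWilf
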